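import Pool.Agent.MWL.Stmts

/-!
# Squad MWL, row NDF: when is the one letter part non-degenerate
-/

set_option autoImplicit false

namespace Pool.Agent.MWL.H30

open Pool.Agent.MVO Pool.Agent.Helper14_MV Pool.Agent.Helper2_MV

theorem psh_const (k : ℕ) (a : ℕ → ℕ) : psh k (fun _ => 0) a 0 = deg k a := by
  simp [psh, deg]

theorem rr_deg {ρ : FIC} {k : ℕ} {a b : ℕ → ℕ} (h : L1 ρ k a b) :
    RR ρ (List.replicate (deg k a) 0) (List.replicate (deg k b) 0) := by
  have h1 : L1 ρ 0 (psh k (fun _ => 0) a) (psh k (fun _ => 0) b) :=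
    (FC.ofFIC ρ).push 0 (fun _ => 0) ⟨fun _ _ _ _ => le_refl _, fun _ _ => le_refl _⟩ h
  unfold L1 mw at h1
  simp only [asm, psh_const] at h1
  exact h1

theorem eq_zero_of_deg {k : ℕ} {a : ℕ → ℕ} (h : deg k a = 0) : ∀ j ≤ k, a j = 0 := by
  intro j hj
  unfold deg at h
  rw [Finset.sum_eq_zero_iff] at h
  exact h j (Finset.mem_range.2 (by omega))

theorem exists_of_deg_one {k : ℕ} {a : ℕ → ℕ} (h : deg k a = 1) :
    ∃ p ≤ k, ∀ j ≤ k, a j = if j = p then 1 else 0 := by
  have h0 : ∃ p ≤ k, a p ≠ 0 := by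
    by_contra hc
    push Not at hc
    have : deg k a = 0 := Finset.sum_eq_zero fun j hj => hc j (by
      have := Finset.mem_range.1 hj
      omega)
    omega
  obtain ⟨p, hp, hap⟩ := h0
  refine ⟨p, hp, ?_⟩
  have h1 : deg k a = a p + ∑ j ∈ (Finset.range (k + 1)).erase p, a j := by
    unfold deg
    exact (Finset.add_sum_erase _ a (Finset.mem_range.2 (by omega))).symm
  have h2 : a p = 1 := by omega
  have h3 : ∑ j ∈ (Finset.range (k + 1)).erase p, a j = 0 := by omega
  intro j hj
  by_cases hjp : j = p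
  · rw [if_pos hjp, hjp, h2]
  · rw [if_neg hjp]
    exact Finset.sum_eq_zero_iff.1 h3 j
      (Finset.mem_erase.2 ⟨hjp, Finset.mem_range.2 (by omega)⟩)

/-- the threshold map -/
def th (p : ℕ) : ℕ → ℕ := fun j => if j ≤ p then 0 else 1

theorem bmap_th (k p : ℕ) : BMap k 1 (th p) := by
  constructor
  · intro i j hij _
    unfold th
    split_ifs <;> omega
  · intro i _
    unfold th
    split_ifs <;> omega

theorem psh_th {k p q : ℕ} (hq : q ≤ k) {a : ℕ → ℕ} (ha : ∀ j ≤ k, a j = if j = q then 1 else 0)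
    (i : ℕ) : psh k (th p) a i = if th p q = i then 1 else 0 := by
  unfold psh
  rw [Finset.sum_eq_single q]
  · rw [ha q hq, if_pos rfl]
  · intro j hj hjq
    have hj' := Finset.mem_range.1 hj
    rw [ha j (by omega), if_neg hjq]
    split_ifs <;> rfl
  · intro hn
    exact absurd (Finset.mem_range.2 (by omega)) hn

theorem swap_of_lt {ρ : FIC} {k p q : ℕ} {a b : ℕ → ℕ} (hpq : p < q) (hq : q ≤ k)
    (ha : ∀ j ≤ k, a j = if j = p then 1 else 0) (hb : ∀ j ≤ k, b j = if j = q then 1 else 0)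
    (h : L1 ρ k a b) : RR ρ [0, 1] [1, 0] := by
  have h1 : L1 ρ 1 (psh k (th p) a) (psh k (th p) b) :=
    (FC.ofFIC ρ).push 1 (th p) (bmap_th k p) h
  have e1 : th p p = 0 := by simp [th]
  have e2 : th p q = 1 := by
    unfold th
    rw [if_neg (by omega)]
  have h2 : RR ρ [0, 2] [2, 0] := by
    unfold L1 mw at h1
    simp only [asm, psh_th (by omega : p ≤ k) ha, psh_th hq hb, e1, e2] at h1
    simpa using h1
  have h3 := h2.sub (fun c => if c = 2 then [1] else [c])
  simpa using h3

theorem ndf : NdfStmt := by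
  intro ρ h01 h0 k a b h hd j hj
  have h : L1 ρ k a b := h
  have hr := rr_deg h
  rcases Nat.le_one_iff_eq_zero_or_eq_one.1 hd with hd0 | hd1
  · rw [hd0] at hr
    have hb0 : deg k b = 0 := by
      by_contra hc
      refine h0 (deg k b + 1) (by omega) ?_
      have h1 := hr.append (RR.refl (β := ρ) [0])
      have e : List.replicate (deg k b) 0 ++ [0] = List.replicate (deg k b + 1) 0 := by
        rw [List.replicate_succ']
      rw [e] at h1
      exact h1
    rw [eq_zero_of_deg hd0 j hj, eq_zero_of_deg hb0 j hj]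
  · rw [hd1] at hr
    have hb1 : deg k b = 1 := by
      by_contra hc
      exact h0 (deg k b) hc hr
    obtain ⟨p, hp, hap⟩ := exists_of_deg_one hd1
    obtain ⟨q, hq, hbq⟩ := exists_of_deg_one hb1
    have hpq : p = q := by
      by_contra hne
      rcases Nat.lt_or_gt_of_ne hne with hlt | hgt
      · exact h01 (swap_of_lt hlt hq hap hbq h)
      · exact h01 (swap_of_lt hgt hp hbq hap (RR.symm h))
    rw [hap j hj, hbq j hj, hpq]

end Pool.Agent.MWL.H30

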